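import Pool.Agent.Helper83.Tri.Slack

/-!
B2 for MP_40ab69_co (planarity of the triangular lattice by ray parity), helper28.
-/

set_option autoImplicit false

namespace TriLat

open Classical

namespace B2

/-- Sum of a `ZMod 2`-valued function over the steps of a walk. -/
noncomputable def W (f : Pt → Pt → ZMod 2) {H : SimpleGraph Pt} {u v : Pt} (w : H.Walk u v) : ZMod 2 :=
  (w.darts.map fun d => f d.fst d.snd).sum

variable {H : SimpleGraph Pt} {u v : Pt}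

theorem W_add (f g : Pt → Pt → ZMod 2) (w : H.Walk u v) :
    W (fun p q => f p q + g p q) w = W f w + W g w := by
  unfold W
  exact List.sum_map_add

theorem W_sum {ι : Type*} (s : Finset ι) (f : ι → Pt → Pt → ZMod 2) (w : H.Walk u v) :
    W (fun p q => ∑ i ∈ s, f i p q) w = ∑ i ∈ s, W (f i) w := by
  unfold W
  induction w.darts with
  | nil => simp
  | cons a l ih => simp [ih, Finset.sum_add_distrib]

theorem W_tel (f : Pt → Pt → ZMod 2) (h : Pt → ZMod 2) (w : H.Walk u v)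
    (hf : ∀ p q, H.Adj p q → f p q = h p + h q) : W f w = h u + h v := by
  induction w with
  | nil => simp [W]; exact (CharTwo.add_self_eq_zero _).symm
  | @cons a b c hab w ih =>
    unfold W at *
    rw [SimpleGraph.Walk.darts_cons, List.map_cons, List.sum_cons, ih]
    simp only
    rw [hf a b hab]
    have : h b + h b = 0 := CharTwo.add_self_eq_zero _
    linear_combination this

theorem W_one (w : H.Walk u v) : W (fun _ _ => 1) w = (w.length : ZMod 2) := by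
  unfold W
  simp

theorem W_congr (f g : Pt → Pt → ZMod 2) (w : H.Walk u v)
    (hf : ∀ p q, H.Adj p q → f p q = g p q) : W f w = W g w := by
  unfold W
  congr 1
  apply List.map_congr_left
  intro d _
  exact hf _ _ d.adj

/-- The ray of `x` crosses the edge `pq`. -/
noncomputable def cross (x p q : Pt) : ZMod 2 :=
  if (p.2 = x.2 ∧ x.1 < p.1 ∧ q.2 = x.2 + 1) ∨ (q.2 = x.2 ∧ x.1 < q.1 ∧ p.2 = x.2 + 1) then 1 else 0

/-- Indicator. -/
noncomputable def ind (P : Prop) : ZMod 2 := if P then 1 else 0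

theorem adj_cases {p q : Pt} {s : ZMod 6} (h : q = p + e s) :
    (q.1 = p.1 + 1 ∧ q.2 = p.2) ∨ (q.1 = p.1 ∧ q.2 = p.2 + 1) ∨ (q.1 = p.1 - 1 ∧ q.2 = p.2 + 1) ∨
    (q.1 = p.1 - 1 ∧ q.2 = p.2) ∨ (q.1 = p.1 ∧ q.2 = p.2 - 1) ∨ (q.1 = p.1 + 1 ∧ q.2 = p.2 - 1) := by
  subst h
  revert s
  intro s
  fin_cases s <;> simp [e] <;> omega

/-- case (1), directions 0, 1, 2 -/
theorem cross_step0 {x y p q : Pt} {s : ZMod 6} (h : q = p + e s) (hy : y.1 = x.1 + 1 ∧ y.2 = x.2)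
    (hpx : p ≠ x) (hpy : p ≠ y) (hqx : q ≠ x) (hqy : q ≠ y) :
    cross x p q + cross y p q = 0 + 0 := by
  obtain ⟨p1, p2⟩ := p
  obtain ⟨q1, q2⟩ := q
  obtain ⟨x1, x2⟩ := x
  obtain ⟨y1, y2⟩ := y
  have hc := adj_cases h
  simp only [ne_eq, Prod.mk.injEq, not_and] at *
  obtain ⟨rfl, rfl⟩ := hy
  unfold cross
  simp only
  rcases hc with ⟨rfl, rfl⟩ | ⟨rfl, rfl⟩ | ⟨rfl, rfl⟩ | ⟨rfl, rfl⟩ | ⟨rfl, rfl⟩ | ⟨rfl, rfl⟩ <;>
  grind

theorem cross_step1 {x y p q : Pt} {s : ZMod 6} (h : q = p + e s) (hy : y.1 = x.1 ∧ y.2 = x.2 + 1)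
    (hpx : p ≠ x) (hpy : p ≠ y) (hqx : q ≠ x) (hqy : q ≠ y) :
    cross x p q + cross y p q = ind (p.2 = x.2 + 1 ∧ x.1 < p.1) + ind (q.2 = x.2 + 1 ∧ x.1 < q.1) := by
  obtain ⟨p1, p2⟩ := p
  obtain ⟨q1, q2⟩ := q
  obtain ⟨x1, x2⟩ := x
  obtain ⟨y1, y2⟩ := y
  have hc := adj_cases h
  simp only [ne_eq, Prod.mk.injEq, not_and] at *
  obtain ⟨rfl, rfl⟩ := hy
  unfold cross ind
  simp only
  rcases hc with ⟨rfl, rfl⟩ | ⟨rfl, rfl⟩ | ⟨rfl, rfl⟩ | ⟨rfl, rfl⟩ | ⟨rfl, rfl⟩ | ⟨rfl, rfl⟩ <;>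
  grind

theorem cross_step2 {x y p q : Pt} {s : ZMod 6} (h : q = p + e s) (hy : y.1 = x.1 - 1 ∧ y.2 = x.2 + 1)
    (hpx : p ≠ x) (hpy : p ≠ y) (hqx : q ≠ x) (hqy : q ≠ y) :
    cross x p q + cross y p q = ind (p.2 = x.2 + 1 ∧ x.1 - 1 < p.1) + ind (q.2 = x.2 + 1 ∧ x.1 - 1 < q.1) := by
  obtain ⟨p1, p2⟩ := p
  obtain ⟨q1, q2⟩ := q
  obtain ⟨x1, x2⟩ := x
  obtain ⟨y1, y2⟩ := y
  have hc := adj_cases h
  simp only [ne_eq, Prod.mk.injEq, not_and] at *
  obtain ⟨rfl, rfl⟩ := hy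
  unfold cross ind
  simp only
  rcases hc with ⟨rfl, rfl⟩ | ⟨rfl, rfl⟩ | ⟨rfl, rfl⟩ | ⟨rfl, rfl⟩ | ⟨rfl, rfl⟩ | ⟨rfl, rfl⟩ <;>
  grind

/-- The edge `pq` is the edge `ab`. -/
noncomputable def isE (a b p q : Pt) : ZMod 2 := ind ((p = a ∧ q = b) ∨ (p = b ∧ q = a))

theorem cross_edge0 {v w l r p q : Pt} {s : ZMod 6} (h : q = p + e s)
    (hw : w.1 = v.1 + 1 ∧ w.2 = v.2) (hl : l.1 = v.1 ∧ l.2 = v.2 + 1) (hr : r.1 = v.1 + 1 ∧ r.2 = v.2 - 1)
    (hpl : p ≠ l) (hpr : p ≠ r) (hql : q ≠ l) (hqr : q ≠ r) :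
    cross l p q + cross r p q + isE v w p q =
      (ind (p.2 = v.2 ∧ v.1 < p.1) + ind (p.2 = v.2 + 1 ∧ v.1 < p.1)) +
      (ind (q.2 = v.2 ∧ v.1 < q.1) + ind (q.2 = v.2 + 1 ∧ v.1 < q.1)) := by
  obtain ⟨p1, p2⟩ := p
  obtain ⟨q1, q2⟩ := q
  obtain ⟨v1, v2⟩ := v
  obtain ⟨w1, w2⟩ := w
  obtain ⟨l1, l2⟩ := l
  obtain ⟨r1, r2⟩ := r
  have hc := adj_cases h
  simp only [ne_eq, Prod.mk.injEq, not_and] at *
  obtain ⟨rfl, rfl⟩ := hw
  obtain ⟨rfl, rfl⟩ := hl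
  obtain ⟨rfl, rfl⟩ := hr
  unfold cross isE ind
  simp only [Prod.mk.injEq]
  rcases hc with ⟨rfl, rfl⟩ | ⟨rfl, rfl⟩ | ⟨rfl, rfl⟩ | ⟨rfl, rfl⟩ | ⟨rfl, rfl⟩ | ⟨rfl, rfl⟩ <;>
  grind

theorem cross_edge1 {v w l r p q : Pt} {s : ZMod 6} (h : q = p + e s)
    (hw : w.1 = v.1 ∧ w.2 = v.2 + 1) (hl : l.1 = v.1 - 1 ∧ l.2 = v.2 + 1) (hr : r.1 = v.1 + 1 ∧ r.2 = v.2)
    (hpl : p ≠ l) (hpr : p ≠ r) (hql : q ≠ l) (hqr : q ≠ r) :
    cross l p q + cross r p q + isE v w p q =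
      ind (p.2 = v.2 + 1 ∧ v.1 - 1 < p.1) + ind (q.2 = v.2 + 1 ∧ v.1 - 1 < q.1) := by
  obtain ⟨p1, p2⟩ := p
  obtain ⟨q1, q2⟩ := q
  obtain ⟨v1, v2⟩ := v
  obtain ⟨w1, w2⟩ := w
  obtain ⟨l1, l2⟩ := l
  obtain ⟨r1, r2⟩ := r
  have hc := adj_cases h
  simp only [ne_eq, Prod.mk.injEq, not_and] at *
  obtain ⟨rfl, rfl⟩ := hw
  obtain ⟨rfl, rfl⟩ := hl
  obtain ⟨rfl, rfl⟩ := hr
  unfold cross isE ind
  simp only [Prod.mk.injEq]
  rcases hc with ⟨rfl, rfl⟩ | ⟨rfl, rfl⟩ | ⟨rfl, rfl⟩ | ⟨rfl, rfl⟩ | ⟨rfl, rfl⟩ | ⟨rfl, rfl⟩ <;>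
  grind

theorem cross_edge2 {v w l r p q : Pt} {s : ZMod 6} (h : q = p + e s)
    (hw : w.1 = v.1 - 1 ∧ w.2 = v.2 + 1) (hl : l.1 = v.1 - 1 ∧ l.2 = v.2) (hr : r.1 = v.1 ∧ r.2 = v.2 + 1)
    (hpl : p ≠ l) (hpr : p ≠ r) (hql : q ≠ l) (hqr : q ≠ r) :
    cross l p q + cross r p q + isE v w p q =
      ind (p.2 = v.2 + 1 ∧ v.1 + 1 ≤ p.1) + ind (q.2 = v.2 + 1 ∧ v.1 + 1 ≤ q.1) := by
  obtain ⟨p1, p2⟩ := p
  obtain ⟨q1, q2⟩ := q
  obtain ⟨v1, v2⟩ := v
  obtain ⟨w1, w2⟩ := w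
  obtain ⟨l1, l2⟩ := l
  obtain ⟨r1, r2⟩ := r
  have hc := adj_cases h
  simp only [ne_eq, Prod.mk.injEq, not_and] at *
  obtain ⟨rfl, rfl⟩ := hw
  obtain ⟨rfl, rfl⟩ := hl
  obtain ⟨rfl, rfl⟩ := hr
  unfold cross isE ind
  simp only [Prod.mk.injEq]
  rcases hc with ⟨rfl, rfl⟩ | ⟨rfl, rfl⟩ | ⟨rfl, rfl⟩ | ⟨rfl, rfl⟩ | ⟨rfl, rfl⟩ | ⟨rfl, rfl⟩ <;>
  grind

theorem e_ne : ∀ t : ZMod 6, e t ≠ 0 := by decide

/-- The graph of the arcs not in `J`. -/
def HG (S : Finset Pt) (J : Pt → ZMod 6 → Prop)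
    (hsymm : ∀ v t, IsArc S v t → (J v t ↔ J (v + e t) (t + 3))) : SimpleGraph Pt where
  Adj p q := ∃ t, IsArc S p t ∧ ¬ J p t ∧ q = p + e t
  symm := ⟨by
    rintro p q ⟨t, ht, hJ, rfl⟩
    refine ⟨t + 3, ⟨ht.2, ?_⟩, ?_, ?_⟩
    · rw [add_e_add_e3]; exact ht.1
    · rw [← hsymm p t ht]; exact hJ
    · rw [add_e_add_e3]⟩
  loopless := ⟨by
    rintro p ⟨t, _, _, h⟩
    have : e t = 0 := by
      have := h.symm
      simpa using this
    exact e_ne t this⟩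

theorem dir_cases : ∀ t : ZMod 6, (t = 0 ∨ t = 1 ∨ t = 2) ∨ (t + 3 = 0 ∨ t + 3 = 1 ∨ t + 3 = 2) := by
  decide

theorem dir_not : ∀ t : ZMod 6, ¬ (t = 0 ∨ t = 1 ∨ t = 2) ↔ (t + 3 = 0 ∨ t + 3 = 1 ∨ t + 3 = 2) := by
  decide

theorem dir_add6 : ∀ t : ZMod 6, t + 3 + 3 = t := by decide

theorem e_neg_eq : ∀ s t : ZMod 6, e s + e t = 0 → t = s + 3 := by decide

theorem e_inj : ∀ s t : ZMod 6, e s = e t → s = t := by decide

theorem isE_comm (a b p q : Pt) : isE a b p q = isE b a p q := by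
  unfold isE ind
  congr 1
  apply propext
  tauto

theorem cross_edge {S : Finset Pt} (hS : TFree S) {v : Pt} {t : ZMod 6} (hv : IsArc S v t) :
    ∃ h : Pt → ZMod 2, ∀ (p : Pt) (s : ZMod 6), p ∈ S → p + e s ∈ S →
      cross (v + e (t + 1)) p (p + e s) + cross (v + e (t - 1)) p (p + e s) + isE v (v + e t) p (p + e s) =
        h p + h (p + e s) := by
  have key : ∀ (v : Pt) (t : ZMod 6), IsArc S v t → v + e (t + 1) ∉ S ∧ v + e (t - 1) ∉ S := by
    intro v t hv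
    refine ⟨hS v hv.1 t hv.2, ?_⟩
    intro h
    have := hS v hv.1 (t - 1) h
    rw [sub_add_cancel] at this
    exact this hv.2
  have main : ∀ (v : Pt) (t : ZMod 6), IsArc S v t → (t = 0 ∨ t = 1 ∨ t = 2) →
      ∃ h : Pt → ZMod 2, ∀ (p : Pt) (s : ZMod 6), p ∈ S → p + e s ∈ S →
      cross (v + e (t + 1)) p (p + e s) + cross (v + e (t - 1)) p (p + e s) + isE v (v + e t) p (p + e s) =
        h p + h (p + e s) := by
    intro v t hv ht
    obtain ⟨hl, hr⟩ := key v t hv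
    rcases ht with rfl | rfl | rfl
    · refine ⟨fun p => ind (p.2 = v.2 ∧ v.1 < p.1) + ind (p.2 = v.2 + 1 ∧ v.1 < p.1), ?_⟩
      intro p s hp hq
      have e1 : e 0 = (1, 0) := by decide
      have e2 : e (0 + 1) = (0, 1) := by decide
      have e3 : e (0 - 1) = (1, -1) := by decide
      exact cross_edge0 (v := v) (w := v + e 0) (l := v + e (0 + 1)) (r := v + e (0 - 1)) (s := s) rfl
        (by rw [e1]; simp) (by rw [e2]; simp) (by rw [e3]; simp [sub_eq_add_neg])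
        (fun h => hl (h ▸ hp)) (fun h => hr (h ▸ hp)) (fun h => hl (h ▸ hq)) (fun h => hr (h ▸ hq))
    · refine ⟨fun p => ind (p.2 = v.2 + 1 ∧ v.1 - 1 < p.1), ?_⟩
      intro p s hp hq
      have e1 : e 1 = (0, 1) := by decide
      have e2 : e (1 + 1) = (-1, 1) := by decide
      have e3 : e (1 - 1) = (1, 0) := by decide
      exact cross_edge1 (v := v) (w := v + e 1) (l := v + e (1 + 1)) (r := v + e (1 - 1)) (s := s) rfl
        (by rw [e1]; simp) (by rw [e2]; simp [sub_eq_add_neg]) (by rw [e3]; simp)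
        (fun h => hl (h ▸ hp)) (fun h => hr (h ▸ hp)) (fun h => hl (h ▸ hq)) (fun h => hr (h ▸ hq))
    · refine ⟨fun p => ind (p.2 = v.2 + 1 ∧ v.1 + 1 ≤ p.1), ?_⟩
      intro p s hp hq
      have e1 : e 2 = (-1, 1) := by decide
      have e2 : e (2 + 1) = (-1, 0) := by decide
      have e3 : e (2 - 1) = (0, 1) := by decide
      exact cross_edge2 (v := v) (w := v + e 2) (l := v + e (2 + 1)) (r := v + e (2 - 1)) (s := s) rfl
        (by rw [e1]; simp [sub_eq_add_neg]) (by rw [e2]; simp [sub_eq_add_neg]) (by rw [e3]; simp)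
        (fun h => hl (h ▸ hp)) (fun h => hr (h ▸ hp)) (fun h => hl (h ▸ hq)) (fun h => hr (h ▸ hq))
  have hcase := dir_cases t
  rcases hcase with ht | ht
  · exact main v t hv ht
  · have hv' : IsArc S (v + e t) (t + 3) := ⟨hv.2, by rw [add_e_add_e3]; exact hv.1⟩
    obtain ⟨h, hh⟩ := main (v + e t) (t + 3) hv' ht
    refine ⟨h, ?_⟩
    intro p s hp hq
    rw [← hh p s hp hq]
    have h1 : v + e t + e (t + 3) = v := add_e_add_e3 v t
    have h2 : v + e t + e (t + 3 + 1) = v + e (t - 1) := by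
      rw [add_assoc, show t + 3 + 1 = t + 4 by ring, e_add_e4]
    have h3 : v + e t + e (t + 3 - 1) = v + e (t + 1) := by
      rw [add_assoc, show t + 3 - 1 = t + 2 by ring, e_add_e2]
    rw [h1, h2, h3, isE_comm v (v + e t)]
    ring

/-- The parity function of a closed walk. -/
theorem cross_pi {S : Finset Pt} {x : Pt} {t : ZMod 6} (hx : x ∉ S) (hy : x + e t ∉ S) :
    ∃ h : Pt → ZMod 2, ∀ (p : Pt) (s : ZMod 6), p ∈ S → p + e s ∈ S →
      cross x p (p + e s) + cross (x + e t) p (p + e s) = h p + h (p + e s) := by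
  have main : ∀ (x : Pt) (t : ZMod 6), x ∉ S → x + e t ∉ S → (t = 0 ∨ t = 1 ∨ t = 2) →
      ∃ h : Pt → ZMod 2, ∀ (p : Pt) (s : ZMod 6), p ∈ S → p + e s ∈ S →
      cross x p (p + e s) + cross (x + e t) p (p + e s) = h p + h (p + e s) := by
    intro x t hx hy ht
    rcases ht with rfl | rfl | rfl
    · refine ⟨fun p => 0, ?_⟩
      intro p s hp hq
      have e1 : e 0 = (1, 0) := by decide
      exact cross_step0 (x := x) (y := x + e 0) (s := s) rfl (by rw [e1]; simp)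
        (fun h => hx (h ▸ hp)) (fun h => hy (h ▸ hp)) (fun h => hx (h ▸ hq)) (fun h => hy (h ▸ hq))
    · refine ⟨fun p => ind (p.2 = x.2 + 1 ∧ x.1 < p.1), ?_⟩
      intro p s hp hq
      have e1 : e 1 = (0, 1) := by decide
      exact cross_step1 (x := x) (y := x + e 1) (s := s) rfl (by rw [e1]; simp)
        (fun h => hx (h ▸ hp)) (fun h => hy (h ▸ hp)) (fun h => hx (h ▸ hq)) (fun h => hy (h ▸ hq))
    · refine ⟨fun p => ind (p.2 = x.2 + 1 ∧ x.1 - 1 < p.1), ?_⟩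
      intro p s hp hq
      have e1 : e 2 = (-1, 1) := by decide
      exact cross_step2 (x := x) (y := x + e 2) (s := s) rfl (by rw [e1]; simp [sub_eq_add_neg])
        (fun h => hx (h ▸ hp)) (fun h => hy (h ▸ hp)) (fun h => hx (h ▸ hq)) (fun h => hy (h ▸ hq))
  have hcase := dir_cases t
  rcases hcase with ht | ht
  · exact main x t hx hy ht
  · obtain ⟨h, hh⟩ := main (x + e t) (t + 3) hy (by rw [add_e_add_e3]; exact hx) ht
    refine ⟨h, ?_⟩
    intro p s hp hq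
    rw [← hh p s hp hq, add_e_add_e3, add_comm]

theorem closed_even (S : Finset Pt) (hS : TFree S) (J : Pt → ZMod 6 → Prop)
    (hsymm : ∀ v t, IsArc S v t → (J v t ↔ J (v + e t) (t + 3)))
    (hJ : ∀ π : Pt → ZMod 2, (∀ x t, x ∉ S → x + e t ∉ S → π x = π (x + e t)) →
      ∑ v ∈ S, ∑ t : ZMod 6, (if IsArc S v t ∧ ¬ J v t then π (v + e (t + 1)) else 0) = 0)
    (u : Pt) (w : (HG S J hsymm).Walk u u) : Even w.length := by
  have hself : ∀ a : ZMod 2, a + a = 0 := fun a => CharTwo.add_self_eq_zero a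
  set π : Pt → ZMod 2 := fun x => W (cross x) w with hπ
  have hclosed : ∀ (f : Pt → Pt → ZMod 2) (h : Pt → ZMod 2),
      (∀ (p : Pt) (s : ZMod 6), p ∈ S → p + e s ∈ S → f p (p + e s) = h p + h (p + e s)) → W f w = 0 := by
    intro f h hf
    rw [W_tel f h w]
    · exact hself _
    · rintro p q ⟨s, hs, _, rfl⟩
      exact hf p s hs.1 hs.2
  have h0 := hJ π (by
    intro x t hx hy
    obtain ⟨h, hh⟩ := cross_pi hx hy
    have h1 := hclosed (fun p q => cross x p q + cross (x + e t) p q) h hh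
    rw [W_add] at h1
    have h2 := hself (W (cross (x + e t)) w)
    simp only [hπ]
    linear_combination h1 - h2)
  have hm : ∀ v t, IsArc S v t → π (v + e (t + 1)) + π (v + e (t - 1)) = W (isE v (v + e t)) w := by
    intro v t hv
    obtain ⟨h, hh⟩ := cross_edge hS hv
    have h1 := hclosed (fun p q => cross (v + e (t + 1)) p q + cross (v + e (t - 1)) p q + isE v (v + e t) p q) h hh
    rw [W_add, W_add] at h1
    have h2 := hself (W (isE v (v + e t)) w)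
    simp only [hπ]
    linear_combination h1 - h2
  -- the arcs
  set AA : Finset (Pt × ZMod 6) := (S ×ˢ Finset.univ).filter (fun a => IsArc S a.1 a.2 ∧ ¬ J a.1 a.2) with hAA
  have h1 : ∑ a ∈ AA, π (a.1 + e (a.2 + 1)) = 0 := by
    rw [hAA, Finset.sum_filter, Finset.sum_product]
    exact h0
  set A1 := AA.filter (fun a => a.2 = 0 ∨ a.2 = 1 ∨ a.2 = 2) with hA1
  have hAmem : ∀ a : Pt × ZMod 6, a ∈ AA ↔ (IsArc S a.1 a.2 ∧ ¬ J a.1 a.2) := by
    intro a
    simp only [hAA, Finset.mem_filter, Finset.mem_product, Finset.mem_univ, and_true]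
    constructor
    · exact fun h => h.2
    · exact fun h => ⟨h.1.1, h⟩
  have hrev : ∀ a : Pt × ZMod 6, a ∈ AA → (a.1 + e a.2, a.2 + 3) ∈ AA := by
    intro a ha
    rw [hAmem] at ha ⊢
    refine ⟨⟨ha.1.2, ?_⟩, ?_⟩
    · simp only
      rw [add_e_add_e3]; exact ha.1.1
    · simp only
      rw [← hsymm a.1 a.2 ha.1]; exact ha.2
  have hrev2 : ∀ a : Pt × ZMod 6, (a.1 + e a.2 + e (a.2 + 3), a.2 + 3 + 3) = a := by
    intro a
    rw [add_e_add_e3, dir_add6]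
  have h2 : ∑ a ∈ AA.filter (fun a => ¬ (a.2 = 0 ∨ a.2 = 1 ∨ a.2 = 2)), π (a.1 + e (a.2 + 1)) =
      ∑ a ∈ A1, π (a.1 + e (a.2 - 1)) := by
    refine Finset.sum_nbij' (fun a => (a.1 + e a.2, a.2 + 3)) (fun a => (a.1 + e a.2, a.2 + 3)) ?_ ?_ ?_ ?_ ?_
    · intro a ha
      rw [Finset.mem_filter] at ha
      rw [hA1, Finset.mem_filter]
      exact ⟨hrev a ha.1, (dir_not a.2).mp ha.2⟩
    · intro a ha
      rw [hA1, Finset.mem_filter] at ha
      rw [Finset.mem_filter]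
      refine ⟨hrev a ha.1, ?_⟩
      rw [dir_not]
      simp only [dir_add6]
      exact ha.2
    · intro a _
      exact hrev2 a
    · intro a _
      exact hrev2 a
    · intro a _
      have h3 : a.1 + e a.2 + e (a.2 + 3 - 1) = a.1 + e (a.2 + 1) := by
        rw [add_assoc, show a.2 + 3 - 1 = a.2 + 2 by ring, e_add_e2]
      simp only
      rw [h3]
  have h3 : ∑ a ∈ A1, W (isE a.1 (a.1 + e a.2)) w = 0 := by
    rw [← Finset.sum_filter_add_sum_filter_not AA (fun a => (a.2 = 0 ∨ a.2 = 1 ∨ a.2 = 2)), h2,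
      ← hA1, ← Finset.sum_add_distrib] at h1
    rw [← h1]
    apply Finset.sum_congr rfl
    intro a ha
    rw [hA1, Finset.mem_filter, hAmem] at ha
    exact (hm a.1 a.2 ha.1.1).symm
  rw [← W_sum] at h3
  rw [W_congr _ (fun _ _ => 1) w, W_one] at h3
  · rwa [← ZMod.natCast_eq_zero_iff_even]
  · rintro p q ⟨s, hs, hJs, rfl⟩
    have hsA : (p, s) ∈ AA := (hAmem _).mpr ⟨hs, hJs⟩
    rcases dir_cases s with hc | hc
    · have hmem : (p, s) ∈ A1 := by
        rw [hA1, Finset.mem_filter]; exact ⟨hsA, hc⟩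
      rw [Finset.sum_eq_single_of_mem (p, s) hmem]
      · simp [isE, ind]
      · intro a ha hne
        rw [hA1, Finset.mem_filter] at ha
        unfold isE ind
        rw [if_neg]
        rintro (⟨h1, h2⟩ | ⟨h1, h2⟩)
        · apply hne
          rw [← h1] at h2
          have := e_inj s a.2 (add_left_cancel h2)
          exact Prod.ext h1.symm this.symm
        · have h4 : e s + e a.2 = 0 := by
            rw [h1, add_assoc] at h2
            have : a.1 + (e a.2 + e s) = a.1 + 0 := by rw [add_zero]; exact h2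
            rw [add_comm]
            exact add_left_cancel this
          have h5 := e_neg_eq s a.2 h4
          have h6 := ha.2
          rw [h5] at h6
          exact ((dir_not s).mpr h6) hc
    · have hmem : (p + e s, s + 3) ∈ A1 := by
        rw [hA1, Finset.mem_filter]; exact ⟨hrev _ hsA, hc⟩
      rw [Finset.sum_eq_single_of_mem (p + e s, s + 3) hmem]
      · simp [isE, ind, add_e_add_e3]
      · intro a ha hne
        rw [hA1, Finset.mem_filter] at ha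
        unfold isE ind
        rw [if_neg]
        rintro (⟨h1, h2⟩ | ⟨h1, h2⟩)
        · rw [← h1] at h2
          have := e_inj s a.2 (add_left_cancel h2)
          have h6 := ha.2
          rw [← this] at h6
          exact ((dir_not s).mpr hc) h6
        · apply hne
          have h4 : e s + e a.2 = 0 := by
            rw [h1, add_assoc] at h2
            have : a.1 + (e a.2 + e s) = a.1 + 0 := by rw [add_zero]; exact h2
            rw [add_comm]
            exact add_left_cancel this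
          have h5 := e_neg_eq s a.2 h4
          exact Prod.ext h2.symm h5

end B2

open Classical in
theorem bipartite_of_tjoin (S : Finset Pt) (hS : TFree S) (J : Pt → ZMod 6 → Prop)
    (hsymm : ∀ v t, IsArc S v t → (J v t ↔ J (v + e t) (t + 3)))
    (hJ : ∀ π : Pt → ZMod 2, (∀ x t, x ∉ S → x + e t ∉ S → π x = π (x + e t)) →
      ∑ v ∈ S, ∑ t : ZMod 6, (if IsArc S v t ∧ ¬ J v t then π (v + e (t + 1)) else 0) = 0) :
    ∃ c : Pt → Bool, ∀ v t, IsArc S v t → ¬ J v t → c v ≠ c (v + e t) := by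
  have h2 : (B2.HG S J hsymm).Colorable 2 := by
    rw [SimpleGraph.two_colorable_iff_forall_loop_even]
    exact B2.closed_even S hS J hsymm hJ
  obtain ⟨C⟩ := h2
  refine ⟨fun v => decide (C v = 0), ?_⟩
  intro v t hv hJv
  have hadj : (B2.HG S J hsymm).Adj v (v + e t) := ⟨t, hv, hJv, rfl⟩
  have hne := C.valid hadj
  intro h
  apply hne
  simp only [decide_eq_decide] at h
  revert h hne
  generalize C v = a
  generalize C (v + e t) = b
  revert a b
  decide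

end TriLat
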